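import Pool.Agent.H30.VX.Targets

/-!
# Row T2D of vex_modules: many vertices outside have neighbours in the core
-/

set_option autoImplicit false

namespace Pool.Agent.H74.VX

open Finset Pool.Agent.H48.CE Pool.Agent.H30.VR Pool.Agent.H30.VX

theorem ee_self_le {V : Type} (G : SimpleGraph V) (U : Finset V) :
    ee G U U ≤ U.card * (U.card - 1) := by
  classical
  unfold ee
  calc ∑ a ∈ U, (nb G U a).card ≤ ∑ _a ∈ U, (U.card - 1) := by
        refine sum_le_sum fun a ha => ?_
        rw [← card_erase_of_mem ha]
        refine card_le_card fun v hv => ?_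
        rw [mem_nb] at hv
        rw [mem_erase]
        exact ⟨hv.2.ne', hv.1⟩
    _ = U.card * (U.card - 1) := by rw [sum_const, smul_eq_mul]

/-- the inequality of the row, over the reals -/
theorem arith {K A S E B L UU RU RR : ℝ} (hK : 100000 ≤ K) (hE : 2000 * E ≤ K) (hA1 : 1 ≤ A)
    (hAE : A ≤ E + 1) (hS0 : 0 ≤ S) (hS : 20 * S ≤ K) (hB : 100 * B ≤ K + 100) (hL : L ≤ E)
    (h1 : UU ≤ (2 * K + 1 - A) * (2 * K - A)) (h2 : RR ≤ (S + A) * (S + A - 1))
    (h3 : RU ≤ A * (B + L) + (S + A) * (3 * A + 2))
    (h4 : 2 * K * (2 * K + 1) + S * (S + 1) ≤ UU + 2 * RU + RR) : False := by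
  have h5 : A * (2 * K + 1 - A - S) + S ≤ A * (B + L) + (S + A) * (3 * A + 2) := by nlinarith
  have h6 : (S + A) * (3 * A + 2) ≤ (S + A) * (5 * A) :=
    mul_le_mul_of_nonneg_left (by linarith) (by linarith)
  have h7 : 0 < A * (2 * K + 1 - A - S - B - L - 5 * S - 5 * A) :=
    mul_pos (by linarith) (by linarith)
  nlinarith

theorem pf_T2D (hFFA : T_FFA) (hFFB : T_FFB) : T_T2D := by
  classical
  intro V _ G W L R k e b a hcov hW hLR hWk hWL ha he hk hb hRb hff hV hs
  obtain ⟨f, hf⟩ : ∃ f : V → ℕ, f = fun v => (nb G W v).card + (nb G L v).card := ⟨_, rfl⟩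
  obtain ⟨P, hP⟩ : ∃ P : Finset V, P = R.filter (fun v => 3 * (a + 1) ≤ f v) := ⟨_, rfl⟩
  rcases Nat.lt_or_ge a P.card with hlt | hge
  · obtain ⟨R₀, hR₀, hc⟩ := exists_subset_card_eq (show a + 1 ≤ P.card by omega)
    refine ⟨R₀, fun v hv => ?_, hc, fun v hv => ?_⟩
    · have := hR₀ hv
      rw [hP, mem_filter] at this
      exact this.1
    · have := hR₀ hv
      rw [hP, mem_filter, hf] at this
      exact this.2
  · exfalso
    have hWLd : Disjoint W L := by
      rw [disjoint_left]
      exact fun v hv => (hW v hv).1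
    obtain ⟨U, hU⟩ : ∃ U : Finset V, U = W ∪ L := ⟨_, rfl⟩
    have hUR : Disjoint U R := by
      rw [disjoint_left]
      intro v hv hv'
      rw [hU, mem_union] at hv
      rcases hv with h | h
      · exact (hW v h).2 hv'
      · exact hLR v h hv'
    have huniv : (univ : Finset V) = U ∪ R := by
      ext v
      rw [hU, mem_union, mem_union]
      rcases hcov v with h | h | h <;> simp [h]
    have hUc : U.card = W.card + L.card := by rw [hU, card_union_of_disjoint hWLd]
    have hVc : Fintype.card V = U.card + R.card := by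
      rw [← card_univ, huniv, card_union_of_disjoint hUR]
    obtain ⟨s, hsd⟩ : ∃ s, Fintype.card V = 2 * k + 1 + s :=
      ⟨Fintype.card V - (2 * k + 1), by omega⟩
    have hs1 : 1 ≤ s := by omega
    have hRc : R.card = s + a := by omega
    have hs20 : 20 * s ≤ k := by
      have : Fintype.card V - 2 * k - 1 = s := by omega
      rw [this] at hs
      exact hs
    -- the extremal number
    have hffv : ff k (Fintype.card V) = (s + 1) * s + 2 * k * (2 * k + 1) := by
      have h1 := (hFFA k (s + 1) (by omega) (by omega)).2.2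
      have h2 := (hFFB k (s + 1) (by omega) (by omega)).2.2 (by omega)
      have h3 : Fintype.card V = s + 1 + 2 * k := by omega
      rw [h3, h1, h2]
      simp
    -- the count
    have hsplit : ee G univ univ = ee G U U + 2 * ee G R U + ee G R R := by
      rw [huniv, ee_union_left hUR, ee_union_right hUR, ee_union_right hUR, ee_comm U R]
      ring
    have hb1 : ee G U U ≤ U.card * (U.card - 1) := ee_self_le G U
    have hb2 : ee G R R ≤ R.card * (R.card - 1) := ee_self_le G R
    have hb3 : ee G R U ≤ a * (b + L.card) + (s + a) * (3 * a + 2) := by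
      have h1 : ee G R U = ∑ v ∈ R, f v := by
        rw [hU, ee_union_right hWLd, hf]
        unfold ee
        rw [sum_add_distrib]
      have h2 : ∑ v ∈ R, f v = ∑ v ∈ P, f v +
          ∑ v ∈ R.filter (fun v => ¬ 3 * (a + 1) ≤ f v), f v := by
        rw [hP, sum_filter_add_sum_filter_not]
      have h3 : ∑ v ∈ P, f v ≤ P.card * (b + L.card) := by
        rw [← smul_eq_mul, ← sum_const]
        refine sum_le_sum fun v hv => ?_
        rw [hP, mem_filter] at hv
        have h4 := hRb v hv.1
        have h5 : (nb G L v).card ≤ L.card := card_le_card (nb_subset L v)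
        rw [hf]
        show (nb G W v).card + (nb G L v).card ≤ b + L.card
        omega
      have h4 : ∑ v ∈ R.filter (fun v => ¬ 3 * (a + 1) ≤ f v), f v ≤ R.card * (3 * a + 2) := by
        calc ∑ v ∈ R.filter (fun v => ¬ 3 * (a + 1) ≤ f v), f v
            ≤ ∑ _v ∈ R.filter (fun v => ¬ 3 * (a + 1) ≤ f v), (3 * a + 2) := by
              refine sum_le_sum fun v hv => ?_
              rw [mem_filter] at hv
              omega
          _ = (R.filter (fun v => ¬ 3 * (a + 1) ≤ f v)).card * (3 * a + 2) := by
              rw [sum_const, smul_eq_mul]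
          _ ≤ R.card * (3 * a + 2) := Nat.mul_le_mul_right _ (card_le_card (filter_subset _ _))
      have h5 : P.card * (b + L.card) ≤ a * (b + L.card) := Nat.mul_le_mul_right _ hge
      rw [hRc] at h4
      omega
    have hU1 : 1 ≤ U.card := by omega
    have hUk : (U.card : ℝ) = 2 * k + 1 - a := by
      have : ((U.card + a : ℕ) : ℝ) = ((2 * k + 1 : ℕ) : ℝ) := by
        rw [hUc]; exact_mod_cast hWL
      push_cast at this
      linarith
    have hR1 : 1 ≤ R.card := by omega
    have hRk : (R.card : ℝ) = s + a := by exact_mod_cast hRc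
    refine arith (K := k) (A := a) (S := s) (E := e) (B := b) (L := L.card) (UU := ee G U U)
      (RU := ee G R U) (RR := ee G R R) (by exact_mod_cast hk) (by exact_mod_cast he)
      (by exact_mod_cast ha) ?_ (Nat.cast_nonneg _) (by exact_mod_cast hs20)
      (by exact_mod_cast hb) ?_ ?_ ?_ (by exact_mod_cast hb3) ?_
    · have : a ≤ e + 1 := by omega
      exact_mod_cast this
    · have : L.card ≤ e := by omega
      exact_mod_cast this
    · have h1 : (ee G U U : ℝ) ≤ ((U.card * (U.card - 1) : ℕ) : ℝ) := by exact_mod_cast hb1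
      rw [Nat.cast_mul, Nat.cast_sub hU1, hUk] at h1
      push_cast at h1
      refine le_trans h1 (le_of_eq ?_)
      ring
    · have h1 : (ee G R R : ℝ) ≤ ((R.card * (R.card - 1) : ℕ) : ℝ) := by exact_mod_cast hb2
      rw [Nat.cast_mul, Nat.cast_sub hR1, hRk] at h1
      push_cast at h1
      exact h1
    · have h1 : (s + 1) * s + 2 * k * (2 * k + 1) ≤ ee G U U + 2 * ee G R U + ee G R R := by
        rw [← hffv, ← hsplit]; exact hff
      have h2 : (((s + 1) * s + 2 * k * (2 * k + 1) : ℕ) : ℝ) ≤
          ((ee G U U + 2 * ee G R U + ee G R R : ℕ) : ℝ) := by exact_mod_cast h1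
      push_cast at h2
      refine le_trans (le_of_eq ?_) h2
      ring

end Pool.Agent.H74.VX
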